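import Pool.Agent.Q233.TFMono
import Pool.Agent.Q233.TFSup

/-!
# MP_d10cfe_mp: reflected Thomas-Fermi density differences are not monotone in the electron number

For one atom with a point nucleus (any `γ > 0`, any nuclear charge `Z > 0`) and any plane not
containing the nucleus, `λ ↦ ρ_λ(x) - ρ_λ(x*)` is not monotone increasing on `(0, Z]` for some `x` on the
nuclear side of the plane.
-/

set_option autoImplicit false
open MeasureTheory Set Filter Topology Metric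
open scoped RealInnerProductSpace

namespace Pool.Agent.Results.MP_d10cfe_mp.ReflectedDifference

/-- three dimensional Euclidean space -/
abbrev E3 := EuclideanSpace ℝ (Fin 3)

/-- densities: nonnegative, in `L¹ ∩ L^{5/3}` -/
def Admissible (ρ : E3 → ℝ) : Prop :=
  Measurable ρ ∧ (∀ x, 0 ≤ ρ x) ∧ Integrable ρ ∧ Integrable (fun x => ρ x ^ (5/3 : ℝ))

/-- the TF functional of an atom with a point nucleus of charge `Z` at `R` -/
noncomputable def energy (γ Z : ℝ) (R : E3) (ρ : E3 → ℝ) : ℝ :=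
  3/5 * γ * (∫ x, ρ x ^ (5/3 : ℝ)) - (∫ x, Z / ‖x - R‖ * ρ x)
    + 1/2 * (∫ x, ∫ y, ρ x * ρ y / ‖x - y‖)

/-- the potential `φ = V - |x|⁻¹ * ρ` -/
noncomputable def phi (Z : ℝ) (R : E3) (ρ : E3 → ℝ) (x : E3) : ℝ := Z / ‖x - R‖ - ∫ y, ρ y / ‖x - y‖

/-- `ρ` is the TF density with electron number `lam`: the minimiser, in its pointwise normalisation by the
TF equation `γ ρ^{2/3} = (φ - μ)₊` off the nucleus -/
structure IsTFDensity (γ Z : ℝ) (R : E3) (lam : ℝ) (ρ : E3 → ℝ) : Prop where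
  adm : Admissible ρ
  mass : ∫ x, ρ x = lam
  min : ∀ σ, Admissible σ → ∫ x, σ x = lam → energy γ Z R ρ ≤ energy γ Z R σ
  eq : ∃ μ, 0 ≤ μ ∧ ∀ x, x ≠ R → γ * ρ x ^ (2/3 : ℝ) = max (phi Z R ρ x - μ) 0

/-- mirror image in the plane `⟪n, x⟫ = t` (`n` a unit vector) -/
noncomputable def mirror (n : E3) (t : ℝ) (x : E3) : E3 := x - (2 * (⟪n, x⟫ - t)) • n

section

open Pool.Agent.Helper557.TFP Pool.Agent.H9R2.TF Pool.Agent.Q233.TFShell Pool.Agent.Q233.TFAtom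
  Pool.Agent.Q233.TFMono

lemma ae_ne (R : E3) : ∀ᵐ x : E3, x ≠ R := by
  rw [ae_iff]; simp

lemma Vint (Z : ℝ) (R : E3) {g : E3 → ℝ} (hg : Nice g) : Integrable (fun x => Z / ‖x - R‖ * g x) := by
  have := (Pool.Agent.Q233.TFSup.ker_int hg R).1.const_mul Z
  refine this.congr (ae_of_all _ (fun x => ?_))
  simp only; ring

/-- the basic convexity inequality -/
lemma breg {γ Z : ℝ} {R : E3} {ρ σ : E3 → ℝ} (hγ : 0 < γ) (hρ : Admissible ρ) (hσ : Admissible σ)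
    (hm : ∫ x, ρ x = ∫ x, σ x) {μ : ℝ} (he : ∀ x, x ≠ R → γ * ρ x ^ (2/3 : ℝ) = max (phi Z R ρ x - μ) 0) :
    Integrable (fun x => 3/5 * γ * σ x ^ (5/3 : ℝ) - 3/5 * γ * ρ x ^ (5/3 : ℝ) - (phi Z R ρ x - μ) * (σ x - ρ x)) ∧
    (∀ᵐ x, γ * (3/5 * σ x ^ (5/3 : ℝ) - 3/5 * ρ x ^ (5/3 : ℝ) - ρ x ^ (2/3 : ℝ) * (σ x - ρ x))
      ≤ 3/5 * γ * σ x ^ (5/3 : ℝ) - 3/5 * γ * ρ x ^ (5/3 : ℝ) - (phi Z R ρ x - μ) * (σ x - ρ x)) ∧
    (∫ x, (3/5 * γ * σ x ^ (5/3 : ℝ) - 3/5 * γ * ρ x ^ (5/3 : ℝ) - (phi Z R ρ x - μ) * (σ x - ρ x)))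
      ≤ energy γ Z R σ - energy γ Z R ρ := by
  have nρ : Nice ρ := nice_of_adm hρ
  have nσ : Nice σ := nice_of_adm hσ
  have nδ : Nice (fun x => σ x - ρ x) := nice_sub' nσ nρ
  have i1 : Integrable (fun x => 3/5 * γ * σ x ^ (5/3 : ℝ)) := hσ.2.2.2.const_mul _
  have i2 : Integrable (fun x => 3/5 * γ * ρ x ^ (5/3 : ℝ)) := hρ.2.2.2.const_mul _
  have i3 : Integrable (fun x : E3 => Z / ‖x - R‖ * (σ x - ρ x)) := Vint Z R nδ
  have i4 : Integrable (fun x => (σ x - ρ x) * pot ρ x) := TF_E1_int _ _ nδ.2.1 nρ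
  have i5 : Integrable (fun x => μ * (σ x - ρ x)) := nδ.2.1.const_mul _
  have i6 : Integrable (fun x => (phi Z R ρ x - μ) * (σ x - ρ x)) := by
    refine ((i3.sub i4).sub i5).congr (ae_of_all _ (fun x => ?_))
    simp only [phi, pot, Pi.sub_apply]; ring
  refine ⟨(i1.sub i2).sub i6, ?_, ?_⟩
  · filter_upwards [ae_ne R] with x hx
    have h1 := he x hx
    have s0 := hσ.2.1 x
    have r0 := hρ.2.1 x
    have h2 : (phi Z R ρ x - μ) * (σ x - ρ x) ≤ γ * ρ x ^ (2/3 : ℝ) * (σ x - ρ x) := by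
      rcases le_or_gt (phi Z R ρ x - μ) 0 with h | h
      · rw [max_eq_right h] at h1
        have h3 : ρ x ^ (2/3 : ℝ) = 0 := by
          rcases mul_eq_zero.1 h1 with h' | h'
          · exact absurd h' hγ.ne'
          · exact h'
        have h4 : ρ x = 0 := by
          by_contra hne
          exact absurd h3 (Real.rpow_pos_of_pos (lt_of_le_of_ne r0 (Ne.symm hne)) _).ne'
        rw [h3, h4]
        nlinarith
      · rw [max_eq_left h.le] at h1
        rw [h1]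
    nlinarith
  · have a1 : ∫ x, (3/5 * γ * σ x ^ (5/3 : ℝ) - 3/5 * γ * ρ x ^ (5/3 : ℝ) - (phi Z R ρ x - μ) * (σ x - ρ x))
        = (∫ x, (3/5 * γ * σ x ^ (5/3 : ℝ) - 3/5 * γ * ρ x ^ (5/3 : ℝ))) - ∫ x, (phi Z R ρ x - μ) * (σ x - ρ x) :=
      integral_sub (i1.sub i2) i6
    have a2 : ∫ x, (3/5 * γ * σ x ^ (5/3 : ℝ) - 3/5 * γ * ρ x ^ (5/3 : ℝ))
        = (∫ x, 3/5 * γ * σ x ^ (5/3 : ℝ)) - ∫ x, 3/5 * γ * ρ x ^ (5/3 : ℝ) := integral_sub i1 i2
    have a3 : ∫ x, (phi Z R ρ x - μ) * (σ x - ρ x)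
        = (∫ x, Z / ‖x - R‖ * (σ x - ρ x)) - (∫ x, (σ x - ρ x) * pot ρ x) - ∫ x, μ * (σ x - ρ x) := by
      have b1 : ∫ x, (Z / ‖x - R‖ * (σ x - ρ x) - (σ x - ρ x) * pot ρ x)
        = (∫ x, Z / ‖x - R‖ * (σ x - ρ x)) - ∫ x, (σ x - ρ x) * pot ρ x := integral_sub i3 i4
      have i34 : Integrable (fun x => Z / ‖x - R‖ * (σ x - ρ x) - (σ x - ρ x) * pot ρ x) := i3.sub i4
      rw [← b1, ← integral_sub i34 i5]
      congr 1
      funext x
      simp only [phi, pot]; ring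
    have a4 : ∫ x, μ * (σ x - ρ x) = 0 := by
      rw [integral_const_mul, integral_sub nσ.2.1 nρ.2.1, hm]; ring
    have a5 : ∫ x, Z / ‖x - R‖ * (σ x - ρ x) = (∫ x, Z / ‖x - R‖ * σ x) - ∫ x, Z / ‖x - R‖ * ρ x := by
      rw [← integral_sub (Vint Z R nσ) (Vint Z R nρ)]
      congr 1
      funext x; ring
    have e1 := (kop_full nρ).exp nρ nδ 1
    have e2 : (fun y => ρ y + 1 * (σ y - ρ y)) = σ := by funext y; ring
    have e3 : ∫ x, σ x * pot σ x = (∫ x, ρ x * pot ρ x) + 2 * (∫ x, (σ x - ρ x) * pot ρ x)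
        + ∫ x, (σ x - ρ x) * pot (fun y => σ y - ρ y) x := by
      rw [e2] at e1
      have : (fun x => (ρ x + 1 * (σ x - ρ x)) * pot σ x) = fun x => σ x * pot σ x := by
        funext x; ring
      rw [this] at e1
      rw [e1]; ring
    have e4 := pot_pos nδ
    rw [a1, a2, a3, a4, a5, integral_const_mul, integral_const_mul]
    unfold energy
    rw [TF_E1_dbl, TF_E1_dbl, e3]
    linarith

/-- the Euler-Lagrange equation implies minimality -/
lemma min_of_eq {γ Z : ℝ} {R : E3} {ρ : E3 → ℝ} (hγ : 0 < γ) (hρ : Admissible ρ)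
    {μ : ℝ} (he : ∀ x, x ≠ R → γ * ρ x ^ (2/3 : ℝ) = max (phi Z R ρ x - μ) 0) (σ : E3 → ℝ) (hσ : Admissible σ)
    (hm : ∫ x, σ x = ∫ x, ρ x) : energy γ Z R ρ ≤ energy γ Z R σ := by
  obtain ⟨h1, h2, h3⟩ := breg hγ hρ hσ hm.symm he
  have : 0 ≤ ∫ x, (3/5 * γ * σ x ^ (5/3 : ℝ) - 3/5 * γ * ρ x ^ (5/3 : ℝ) - (phi Z R ρ x - μ) * (σ x - ρ x)) := by
    refine integral_nonneg_of_ae ?_
    filter_upwards [h2] with x hx
    refine le_trans ?_ hx
    have := sc2 (hσ.2.1 x) (hρ.2.1 x)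
    simp only [Pi.zero_apply]
    apply mul_nonneg hγ.le
    linarith
  linarith

lemma strict {a b : ℝ} (ha : 0 ≤ a) (hb : 0 ≤ b) (h : 3/5 * a ^ (5/3 : ℝ) - 3/5 * b ^ (5/3 : ℝ) - b ^ (2/3 : ℝ) * (a - b) ≤ 0) :
    a = b := by
  set r := max a b with hr
  have h1 := sc1 ha hb (le_max_left a b) (le_max_right a b)
  have h2 := sc2 (show 0 ≤ (a + b) / 2 by positivity) hb
  have h3 : b ^ (2/3 : ℝ) * (b - (a + b) / 2) = - (1/2) * (b ^ (2/3 : ℝ) * (a - b)) := by ring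
  rw [h3] at h2
  have h4 : (a - b) ^ 2 / (max a b) ^ (1/3 : ℝ) ≤ 0 := by linarith
  by_contra hne
  have hpos : 0 < max a b := by
    rcases lt_or_gt_of_ne hne with h' | h'
    · exact lt_of_lt_of_le (lt_of_le_of_lt ha h') (le_max_right _ _)
    · exact lt_of_lt_of_le (lt_of_le_of_lt hb h') (le_max_left _ _)
  have : 0 < (a - b) ^ 2 / (max a b) ^ (1/3 : ℝ) :=
    div_pos (pow_pos_of_ne (sub_ne_zero.2 hne)) (Real.rpow_pos_of_pos hpos _)
  linarith
where
  pow_pos_of_ne {x : ℝ} (hx : x ≠ 0) : 0 < x ^ 2 := by positivity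

/-- uniqueness of the TF density, pointwise off the nucleus -/
lemma unique {γ Z : ℝ} {R : E3} {lam : ℝ} (hγ : 0 < γ) (hl : 0 < lam) {ρ σ : E3 → ℝ} (h1 : IsTFDensity γ Z R lam ρ)
    (h2 : IsTFDensity γ Z R lam σ) : ∀ x, x ≠ R → ρ x = σ x := by
  obtain ⟨μ, hμ, he⟩ := h1.eq
  obtain ⟨ν, hν, he'⟩ := h2.eq
  obtain ⟨b1, b2, b3⟩ := breg hγ h1.adm h2.adm (h1.mass.trans h2.mass.symm) he
  have b4 := h2.min ρ h1.adm h1.mass
  have hnn : 0 ≤ᵐ[volume] fun x => 3/5 * γ * σ x ^ (5/3 : ℝ) - 3/5 * γ * ρ x ^ (5/3 : ℝ) - (phi Z R ρ x - μ) * (σ x - ρ x) := by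
    filter_upwards [b2] with x hx
    refine le_trans ?_ hx
    have := sc2 (h2.adm.2.1 x) (h1.adm.2.1 x)
    simp only [Pi.zero_apply]
    apply mul_nonneg hγ.le
    linarith
  have hz : ∫ x, (3/5 * γ * σ x ^ (5/3 : ℝ) - 3/5 * γ * ρ x ^ (5/3 : ℝ) - (phi Z R ρ x - μ) * (σ x - ρ x)) = 0 :=
    le_antisymm (by linarith) (integral_nonneg_of_ae hnn)
  have hz' := (integral_eq_zero_iff_of_nonneg_ae hnn b1).1 hz
  have hae : σ =ᵐ[volume] ρ := by
    filter_upwards [b2, hz'] with x hx hx0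
    simp only [Pi.zero_apply] at hx0
    rw [hx0] at hx
    apply strict (h2.adm.2.1 x) (h1.adm.2.1 x)
    by_contra hc
    rw [not_le] at hc
    exact absurd hx (not_le.2 (mul_pos hγ hc))
  have hphi : ∀ x, phi Z R ρ x = phi Z R σ x := by
    intro x
    unfold phi
    congr 1
    refine integral_congr_ae ?_
    filter_upwards [hae] with y hy
    rw [hy]
  -- the chemical potentials agree
  have hμν : μ = ν := by
    have hpos : ¬ ∀ᵐ x, ρ x = 0 := by
      intro hall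
      have : ∫ x, ρ x = 0 := by
        rw [← integral_zero E3 ℝ]
        exact integral_congr_ae hall
      rw [h1.mass] at this
      exact absurd this hl.ne'
    by_contra hne
    apply hpos
    filter_upwards [hae, ae_ne R] with x hx hxR
    have k1 := he x hxR
    have k2 := he' x hxR
    rw [hx, ← hphi] at k2
    by_contra h0
    have hp : 0 < γ * ρ x ^ (2/3 : ℝ) :=
      mul_pos hγ (Real.rpow_pos_of_pos (lt_of_le_of_ne (h1.adm.2.1 x) (Ne.symm h0)) _)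
    have k3 : phi Z R ρ x - μ = γ * ρ x ^ (2/3 : ℝ) := by
      rcases le_or_gt (phi Z R ρ x - μ) 0 with h | h
      · rw [max_eq_right h] at k1; linarith
      · rw [max_eq_left h.le] at k1; exact k1.symm
    have k4 : phi Z R ρ x - ν = γ * ρ x ^ (2/3 : ℝ) := by
      rcases le_or_gt (phi Z R ρ x - ν) 0 with h | h
      · rw [max_eq_right h] at k2; linarith
      · rw [max_eq_left h.le] at k2; exact k2.symm
    exact hne (by linarith)
  intro x hx
  have k1 := he x hx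
  have k2 := he' x hx
  rw [← hphi, ← hμν, ← k1] at k2
  have k3 := mul_left_cancel₀ hγ.ne' k2
  have r0 := h1.adm.2.1 x
  have s0 := h2.adm.2.1 x
  have : (σ x ^ (2/3 : ℝ)) ^ (3/2 : ℝ) = (ρ x ^ (2/3 : ℝ)) ^ (3/2 : ℝ) := by rw [k3]
  rw [← Real.rpow_mul s0, ← Real.rpow_mul r0] at this
  norm_num at this
  exact this.symm

/-! ### transport from the standard atom -/

/-- the scaled density -/
noncomputable def tp (γ c : ℝ) (R : E3) (ρ : E3 → ℝ) (x : E3) : ℝ := c ^ 6 / γ ^ 3 * ρ ((c / γ) • (x - R))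

lemma tp_int {γ c : ℝ} (hγ : 0 < γ) (hc : 0 < c) (R : E3) (f : E3 → ℝ) :
    ∫ x, f ((c / γ) • (x - R)) = (γ / c) ^ 3 * ∫ x, f x := by
  rw [integral_sub_right_eq_self (fun x => f ((c / γ) • x)) R, Pool.Agent.Q233.TFSup.int_smul (by positivity) f, ← inv_pow, inv_div]

lemma tp_intble {γ c : ℝ} (hγ : 0 < γ) (hc : 0 < c) (R : E3) {f : E3 → ℝ} (hf : Integrable f) :
    Integrable (fun x => f ((c / γ) • (x - R))) :=
  (Pool.Agent.Q233.TFSup.intble_smul (s := c / γ) (by positivity) hf).comp_sub_right R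

lemma tp_pow {γ c r : ℝ} (hγ : 0 < γ) (hc : 0 < c) (hr : 0 ≤ r) :
    (c ^ 6 / γ ^ 3 * r) ^ (5/3 : ℝ) = c ^ 10 / γ ^ 5 * r ^ (5/3 : ℝ) ∧
    (c ^ 6 / γ ^ 3 * r) ^ (2/3 : ℝ) = c ^ 4 / γ ^ 2 * r ^ (2/3 : ℝ) := by
  have e1 : c ^ 6 / γ ^ 3 = (c ^ 2 / γ) ^ 3 := by rw [div_pow, ← pow_mul]
  have h0 : 0 ≤ c ^ 2 / γ := by positivity
  rw [e1, Real.mul_rpow (by positivity) hr, Real.mul_rpow (by positivity) hr, ← Real.rpow_natCast, ← Real.rpow_mul h0,
    ← Real.rpow_mul h0]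
  have a1 : (((3:ℕ):ℝ) * (5/3) : ℝ) = ((5:ℕ):ℝ) := by norm_num
  have a2 : (((3:ℕ):ℝ) * (2/3) : ℝ) = ((2:ℕ):ℝ) := by norm_num
  rw [a1, a2, Real.rpow_natCast, Real.rpow_natCast]
  constructor
  · rw [div_pow, ← pow_mul]
  · rw [div_pow, ← pow_mul]

lemma tp_density {γ c : ℝ} (hγ : 0 < γ) (hc : 0 < c) (R : E3) {μ : ℝ} (hμ : 0 ≤ μ) {ρ : E3 → ℝ} (h : ELs z1 R1 μ ρ) :
    IsTFDensity γ (c ^ 3) R (c ^ 3 * ∫ x, ρ x) (tp γ c R ρ) := by
  have h0 := h.nonneg
  have hadm : Admissible (tp γ c R ρ) := by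
    refine ⟨?_, fun x => mul_nonneg (by positivity) (h0 _), (tp_intble hγ hc R h.nice.2.1).const_mul _, ?_⟩
    · exact (h.nice.1.comp (by fun_prop)).const_mul _
    · have : (fun x => tp γ c R ρ x ^ (5/3 : ℝ)) = fun x => c ^ 10 / γ ^ 5 * (fun y => ρ y ^ (5/3 : ℝ)) ((c / γ) • (x - R)) := by
        funext x
        unfold tp
        rw [(tp_pow hγ hc (h0 _)).1]
      rw [this]
      exact (tp_intble hγ hc R h.int53).const_mul _
  have hmass : ∫ x, tp γ c R ρ x = c ^ 3 * ∫ x, ρ x := by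
    unfold tp
    rw [integral_const_mul, tp_int hγ hc R ρ]
    field_simp
  have hpot : ∀ x, ∫ y, tp γ c R ρ y / ‖x - y‖ = c ^ 4 / γ * pot ρ ((c / γ) • (x - R)) := by
    intro x
    have : (fun y => tp γ c R ρ y / ‖x - y‖) = fun y => c ^ 7 / γ ^ 4 * (fun u => ρ u / ‖(c / γ) • (x - R) - u‖) ((c / γ) • (y - R)) := by
      funext y
      have e : ‖(c / γ) • (x - R) - (c / γ) • (y - R)‖ = c / γ * ‖x - y‖ := by
        rw [← smul_sub, norm_smul, Real.norm_of_nonneg (by positivity)]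
        congr 2
        abel
      unfold tp
      simp only
      rw [e, div_eq_mul_inv, div_eq_mul_inv (ρ _), mul_inv]
      field_simp
    rw [this, integral_const_mul, tp_int hγ hc R (fun u => ρ u / ‖(c / γ) • (x - R) - u‖)]
    unfold pot
    field_simp
  have heq : ∀ x, x ≠ R → γ * tp γ c R ρ x ^ (2/3 : ℝ) = max (phi (c ^ 3) R (tp γ c R ρ) x - c ^ 4 / γ * μ) 0 := by
    intro x hx
    have hne : 0 < ‖x - R‖ := norm_pos_iff.2 (sub_ne_zero.2 hx)
    have e1 : phi (c ^ 3) R (tp γ c R ρ) x - c ^ 4 / γ * μ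
        = c ^ 4 / γ * (VV z1 R1 ((c / γ) • (x - R)) - pot ρ ((c / γ) • (x - R)) - μ) := by
      unfold phi
      rw [hpot, VV1, norm_smul, Real.norm_of_nonneg (by positivity)]
      field_simp
    have e2 : ρ ((c / γ) • (x - R)) ^ (2/3 : ℝ) = max (VV z1 R1 ((c / γ) • (x - R)) - pot ρ ((c / γ) • (x - R)) - μ) 0 := by
      conv_lhs => rw [h.eq]
      rw [be_pow]
    rw [e1]
    unfold tp
    rw [(tp_pow hγ hc (h0 _)).2, e2]
    have hk : 0 ≤ c ^ 4 / γ := by positivity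
    have := mul_max_of_nonneg (VV z1 R1 ((c / γ) • (x - R)) - pot ρ ((c / γ) • (x - R)) - μ) 0 hk
    rw [mul_zero] at this
    rw [← this]
    field_simp
  exact ⟨hadm, hmass, fun σ hσ hm => min_of_eq hγ hadm heq σ hσ (hm.trans hmass.symm), c ^ 4 / γ * μ, by positivity, heq⟩

/-! ### the charge of the ion -/

lemma ion_mass {μ : ℝ} (hμ : 0 < μ) {ρ : E3 → ℝ} (h : ELs z1 R1 μ ρ) : 0 < ∫ x, ρ x ∧ ∫ x, ρ x < 1 := by
  constructor
  · rcases lt_or_eq_of_le (integral_nonneg h.nonneg : 0 ≤ ∫ x, ρ x) with h1 | h1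
    · exact h1
    · exfalso
      have hz := (integral_eq_zero_iff_of_nonneg h.nonneg h.nice.2.1).1 h1.symm
      have hp : ∀ x, pot ρ x = 0 := by
        intro x
        unfold pot
        rw [← integral_zero E3 ℝ]
        refine integral_congr_ae ?_
        filter_upwards [hz] with y hy
        rw [hy]; simp
      have hb : ∀ᵐ x : E3, x ∉ ball (0:E3) (1 / μ) := by
        filter_upwards [hz, ae_ne 0] with x hx hx0 hxb
        have hn : 0 < ‖x‖ := norm_pos_iff.2 hx0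
        have hxb' : ‖x‖ < 1 / μ := by simpa using hxb
        have h2 := h.eq x
        rw [VV1, hp, sub_zero, hx] at h2
        have h3 : 0 < 1 / ‖x‖ - μ := by
          rw [lt_div_iff₀ hμ] at hxb'
          rw [sub_pos, lt_div_iff₀ hn]; linarith
        have h4 : 0 < be (1 / ‖x‖ - μ) := by
          unfold be
          rw [max_eq_left h3.le]
          exact Real.rpow_pos_of_pos h3 _
        rw [← h2] at h4
        exact lt_irrefl _ h4
      rw [ae_iff] at hb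
      simp only [not_not, Set.setOf_mem_eq] at hb
      exact absurd hb (measure_ball_pos volume (0:E3) (by positivity)).ne'
  · have hle : ∫ x, ρ x ≤ 1 := by
      rw [← rho0_mass]
      exact integral_mono h.nice.2.1 rho0_nice.2.1 (fun x => by have := diff_nonneg hμ.le h x; linarith)
    rcases lt_or_eq_of_le hle with h1 | h1
    · exact h1
    · exfalso
      have hd : ∫ x, (rho0 x - ρ x) = 0 := by
        rw [integral_sub rho0_nice.2.1 h.nice.2.1, rho0_mass, h1, sub_self]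
      have hz := (integral_eq_zero_iff_of_nonneg (fun x => diff_nonneg hμ.le h x) (rho0_nice.2.1.sub h.nice.2.1)).1 hd
      have hp : ∀ x, gg μ ρ x = μ := by
        intro x
        have : ∫ y : E3, (rho0 y - ρ y) / max ‖y‖ ‖x‖ = 0 := by
          rw [← integral_zero E3 ℝ]
          refine integral_congr_ae ?_
          filter_upwards [hz] with y hy
          simp only [Pi.zero_apply] at hy
          rw [hy]; simp
        rw [(dint h x).2, this, sub_zero]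
      have hfalse : ∀ᵐ x : E3, False := by
        filter_upwards [hz, ae_ne 0] with x hx hx0
        simp only [Pi.zero_apply] at hx
        have hf := f0_pos (norm_pos_iff.2 hx0)
        rw [rho0_eq, rho_gg h x, hp, phi0_f0] at hx
        have hlt : be (f0 ‖x‖ - μ) < be (f0 ‖x‖) := by
          unfold be
          rw [max_eq_left hf.le]
          exact Real.rpow_lt_rpow (le_max_right _ _) (max_lt (by linarith) hf) (by norm_num)
        linarith
      rw [ae_iff] at hfalse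
      simp at hfalse

/-! ### geometry -/

lemma geo {n : E3} (hn : ‖n‖ = 1) {t r s : ℝ} (ht : 0 < t) (htr : t ≤ r) (hrs : r < s) (hs : s ≤ r + 2 * t) :
    ∃ v : E3, ⟪n, v⟫ < t ∧ ‖v‖ = r ∧ ‖v - (2 * (⟪n, v⟫ - t)) • n‖ = s := by
  obtain ⟨L, hL⟩ := exists_rot n hn
  set e : E3 := L.symm (EuclideanSpace.single 1 1) with he
  have hne : ⟪n, e⟫ = 0 := by
    rw [← L.inner_map_map, hL, he, L.apply_symm_apply]
    simp [e0, EuclideanSpace.inner_single_left]
  have hen : ‖e‖ = 1 := by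
    rw [he, LinearIsometryEquiv.norm_map]; simp
  have hnn : ⟪n, n⟫ = 1 := by rw [real_inner_self_eq_norm_sq, hn]; norm_num
  have hee : ⟪e, e⟫ = 1 := by rw [real_inner_self_eq_norm_sq, hen]; norm_num
  have hen' : ⟪e, n⟫ = 0 := by rw [real_inner_comm]; exact hne
  set c := t - (s ^ 2 - r ^ 2) / (4 * t) with hc
  have hr0 : 0 < r := ht.trans_le htr
  have hq : 0 < (s ^ 2 - r ^ 2) / (4 * t) := div_pos (by nlinarith) (by positivity)
  have hq2 : (s ^ 2 - r ^ 2) / (4 * t) ≤ t + r := by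
    rw [div_le_iff₀ (by positivity)]
    nlinarith
  have hcr : c ^ 2 ≤ r ^ 2 := by
    apply sq_le_sq'
    · rw [hc]; linarith
    · rw [hc]; linarith
  have h4 : 4 * t * (t - c) = s ^ 2 - r ^ 2 := by
    rw [hc]; field_simp; ring
  set d := √(r ^ 2 - c ^ 2) with hd
  have hd2 : d ^ 2 = r ^ 2 - c ^ 2 := Real.sq_sqrt (by linarith)
  have nrm : ∀ a b : ℝ, ‖a • n + b • e‖ ^ 2 = a ^ 2 + b ^ 2 := by
    intro a b
    rw [← real_inner_self_eq_norm_sq]
    simp only [inner_add_left, inner_add_right, inner_smul_left, inner_smul_right, hnn, hee, hne, hen']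
    simp
    ring
  have hin : ⟪n, c • n + d • e⟫ = c := by
    rw [inner_add_right, inner_smul_right, inner_smul_right, hnn, hne]; ring
  refine ⟨c • n + d • e, ?_, ?_, ?_⟩
  · rw [hin, hc]; linarith
  · have := nrm c d
    rw [hd2] at this
    have h5 : ‖c • n + d • e‖ ^ 2 = r ^ 2 := by rw [this]; ring
    exact (sq_eq_sq₀ (norm_nonneg _) hr0.le).1 h5
  · rw [hin]
    have e1 : c • n + d • e - (2 * (c - t)) • n = (2 * t - c) • n + d • e := by
      module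
    rw [e1]
    have h5 : ‖(2 * t - c) • n + d • e‖ ^ 2 = s ^ 2 := by
      rw [nrm, hd2]; linarith
    exact (sq_eq_sq₀ (norm_nonneg _) (hr0.trans hrs).le).1 h5

end

open Pool.Agent.H9R2.TF Pool.Agent.Q233.TFAtom Pool.Agent.Q233.TFMono in
/-- **Monotonicity in the electron number fails for a single atom**, for every `γ > 0`, every nuclear charge
`Z > 0` and every plane `⟪n, x⟫ = t` not containing the nucleus `R` (which lies in the half space
`P* = {⟪n, x⟫ < t}`).  One may take `λ = Z` (the neutral atom) for the larger electron number.  Second part: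
the TF density of given electron number is unique off the nucleus. -/
theorem result :
    (∀ (γ Z : ℝ) (R n : E3) (t : ℝ), 0 < γ → 0 < Z → ‖n‖ = 1 → ⟪n, R⟫ < t →
      ∃ lam' : ℝ, 0 < lam' ∧ lam' < Z ∧ ∃ ρ' ρ : E3 → ℝ, IsTFDensity γ Z R lam' ρ' ∧ IsTFDensity γ Z R Z ρ ∧
        ∃ x : E3, ⟪n, x⟫ < t ∧ x ≠ R ∧ ρ x - ρ (mirror n t x) < ρ' x - ρ' (mirror n t x)) ∧
    (∀ (γ Z : ℝ) (R : E3) (lam : ℝ) (ρ σ : E3 → ℝ), 0 < γ → 0 < lam → IsTFDensity γ Z R lam ρ →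
      IsTFDensity γ Z R lam σ → ∀ x, x ≠ R → ρ x = σ x) := by
  refine ⟨?_, fun γ Z R lam ρ σ hγ hl h1 h2 => unique hγ hl h1 h2⟩
  intro γ Z R n t hγ hZ hn hR
  obtain ⟨c, hc, rfl⟩ : ∃ c : ℝ, 0 < c ∧ c ^ 3 = Z :=
    ⟨Z ^ (1/3 : ℝ), Real.rpow_pos_of_pos hZ _, by
      rw [← Real.rpow_natCast, ← Real.rpow_mul hZ.le]; norm_num⟩
  set b := c / γ with hb
  have hb0 : 0 < b := by positivity
  set τ := b * (t - ⟪n, R⟫) with hτ
  have hτ0 : 0 < τ := mul_pos hb0 (by linarith)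
  obtain ⟨μ, hμ, ρ1, hρ1, r, s, h1, h2, h3, h4⟩ := not_mono hτ0
  obtain ⟨v, v1, v2, v3⟩ := geo hn hτ0 h1 h2 h3
  obtain ⟨m1, m2⟩ := ion_mass hμ hρ1
  have hD : IsTFDensity γ (c ^ 3) R (c ^ 3) (tp γ c R rho0) := by
    have := tp_density hγ hc R le_rfl rho0_EL
    rwa [rho0_mass, mul_one] at this
  refine ⟨c ^ 3 * ∫ x, ρ1 x, by positivity, by nlinarith [pow_pos hc 3], tp γ c R ρ1, tp γ c R rho0,
    tp_density hγ hc R hμ.le hρ1, hD, R + b⁻¹ • v, ?_, ?_, ?_⟩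
  · rw [inner_add_right, inner_smul_right]
    have : b⁻¹ * ⟪n, v⟫ < b⁻¹ * τ := mul_lt_mul_of_pos_left v1 (by positivity)
    have e : b⁻¹ * τ = t - ⟪n, R⟫ := by rw [hτ]; field_simp
    linarith
  · intro h
    have h5 : b⁻¹ • v = 0 := by simpa using h
    have h6 : v = 0 := by
      rcases smul_eq_zero.1 h5 with h' | h'
      · exact absurd h' (by positivity)
      · exact h'
    rw [h6, norm_zero] at v2
    linarith
  · have ex : b • ((R + b⁻¹ • v) - R) = v := by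
      rw [add_sub_cancel_left, smul_smul, mul_inv_cancel₀ hb0.ne', one_smul]
    have exs : b • (mirror n t (R + b⁻¹ • v) - R) = v - (2 * (⟪n, v⟫ - τ)) • n := by
      unfold mirror
      rw [inner_add_right, inner_smul_right]
      have e1 : R + b⁻¹ • v - (2 * (⟪n, R⟫ + b⁻¹ * ⟪n, v⟫ - t)) • n - R
          = b⁻¹ • v - (2 * (⟪n, R⟫ + b⁻¹ * ⟪n, v⟫ - t)) • n := by abel
      rw [e1, smul_sub, smul_smul, smul_smul, mul_inv_cancel₀ hb0.ne', one_smul]
      congr 2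
      rw [hτ]; field_simp; ring
    have hk : 0 < c ^ 6 / γ ^ 3 := by positivity
    have val : ∀ ρ : E3 → ℝ, tp γ c R ρ (R + b⁻¹ • v) - tp γ c R ρ (mirror n t (R + b⁻¹ • v))
        = c ^ 6 / γ ^ 3 * (ρ v - ρ (v - (2 * (⟪n, v⟫ - τ)) • n)) := by
      intro ρ
      unfold tp
      rw [← hb, ex, exs]; ring
    rw [val, val]
    apply mul_lt_mul_of_pos_left _ hk
    have d1 := DD_eq hρ1 v
    have d2 := DD_eq hρ1 (v - (2 * (⟪n, v⟫ - τ)) • n)
    rw [v2] at d1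
    rw [v3] at d2
    linarith

end Pool.Agent.Results.MP_d10cfe_mp.ReflectedDifference
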